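import Mathlib

set_option autoImplicit false
set_option linter.unusedSectionVars false

/-!
Directed cycles in simple graphs: balanced `{-1,0,1}`-valued arc functions decompose into directed
cycles, and every even edge set carries such a function.
-/

namespace Pool.Agent.H305R2.OC

open Finset SimpleGraph
open scoped Classical

noncomputable section

variable {V : Type} [Fintype V] {G : SimpleGraph V}

/-- a cycle from a relation in which every arc can be continued backwards -/
lemma exists_cycle (R : V → V → Prop) (hR : ∀ u v, R u v → G.Adj u v)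
    (hstep : ∀ b c, R b c → ∃ x, R x b ∧ x ≠ c) (b0 c0 : V) (h0 : R b0 c0) :
    ∃ (v : V) (w : G.Walk v v), w.IsCycle ∧ ∀ d ∈ w.darts, R d.fst d.snd := by
  -- paths of length at least one all of whose darts satisfy `R`
  let P : ℕ → Prop := fun n => ∃ (a b : V) (p : G.Walk a b), p.IsPath ∧ p.length = n ∧
    ∀ d ∈ p.darts, R d.fst d.snd
  have hP1 : P 1 := by
    refine ⟨b0, c0, Walk.cons (hR _ _ h0) Walk.nil, ?_, rfl, ?_⟩
    · rw [Walk.cons_isPath_iff]
      refine ⟨Walk.IsPath.nil, ?_⟩
      simp only [Walk.support_nil, List.mem_singleton]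
      exact (hR _ _ h0).ne
    · intro d hd
      simp only [Walk.darts_cons, Walk.darts_nil, List.mem_singleton] at hd
      subst hd
      exact h0
  have hPb : ∀ n, P n → n ≤ Fintype.card V := by
    rintro n ⟨a, b, p, hp, hn, _⟩
    have := hp.length_lt
    omega
  obtain ⟨n, hn, hmax⟩ : ∃ n, P n ∧ ∀ m, P m → m ≤ n := by
    have hne : ((Finset.range (Fintype.card V + 1)).filter P).Nonempty :=
      ⟨1, by simp only [Finset.mem_filter, Finset.mem_range]; exact ⟨by have := hPb 1 hP1; omega, hP1⟩⟩
    refine ⟨_, (Finset.mem_filter.1 (Finset.max'_mem _ hne)).2, fun m hm => ?_⟩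
    apply Finset.le_max'
    simp only [Finset.mem_filter, Finset.mem_range]
    exact ⟨by have := hPb m hm; omega, hm⟩
  have hn1 : 1 ≤ n := hmax 1 hP1
  obtain ⟨b, a, p, hp, hlen, hd⟩ := hn
  cases p with
  | nil => simp at hlen; omega
  | @cons _ c _ hbc p' =>
    have hRbc : R b c := hd ⟨(b, c), hbc⟩ (by simp)
    obtain ⟨x, hxb, hxc⟩ := hstep b c hRbc
    have hadj := hR _ _ hxb
    by_cases hx : x ∈ (Walk.cons hbc p').support
    · refine ⟨x, Walk.cons hadj ((Walk.cons hbc p').takeUntil x hx), ?_, ?_⟩
      · rw [Walk.cons_isCycle_iff]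
        refine ⟨hp.takeUntil hx, fun he => ?_⟩
        have he2 := (Walk.cons hbc p').edges_takeUntil_subset_edges hx he
        rw [Walk.edges_cons, List.mem_cons] at he2
        rcases he2 with he2 | he2
        · rw [Sym2.eq_iff] at he2
          rcases he2 with ⟨h1, _⟩ | ⟨h1, _⟩
          · exact hadj.ne h1
          · exact hxc h1
        · have := Walk.snd_mem_support_of_mem_edges p' he2
          exact ((Walk.cons_isPath_iff _ _).1 hp).2 this
      · intro d hd'
        rw [Walk.darts_cons, List.mem_cons] at hd'
        rcases hd' with hd' | hd'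
        · subst hd'; exact hxb
        · exact hd d ((Walk.cons hbc p').darts_takeUntil_subset_darts hx hd')
    · exfalso
      have : P (n + 1) := by
        refine ⟨x, a, Walk.cons hadj (Walk.cons hbc p'), ?_, ?_, ?_⟩
        · rw [Walk.cons_isPath_iff]; exact ⟨hp, hx⟩
        · rw [Walk.length_cons, hlen]
        · intro d hd'
          rw [Walk.darts_cons, List.mem_cons] at hd'
          rcases hd' with hd' | hd'
          · subst hd'; exact hxb
          · exact hd d hd'
      have := hmax _ this
      omega

/-- how often the walk `w` uses the arc `(u, v)` -/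
def cnt {a b : V} (w : G.Walk a b) (u v : V) : ℕ :=
  (w.darts.filter (fun d => decide (d.toProd = (u, v)))).length

/-- the net use of the arc `(u, v)` -/
def net {a b : V} (w : G.Walk a b) (u v : V) : ℤ := (cnt w u v : ℤ) - cnt w v u

lemma cnt_add {a b : V} (w : G.Walk a b) (u v : V) (huv : u ≠ v) :
    cnt w u v + cnt w v u = w.edges.count s(u, v) := by
  unfold cnt Walk.edges
  induction w.darts with
  | nil => simp
  | cons d l ih =>
    simp only [List.filter_cons, List.map_cons, List.count_cons, decide_eq_true_eq]
    have hd : d.edge = s(d.fst, d.snd) := rfl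
    by_cases h1 : d.toProd = (u, v)
    · have h2 : ¬ d.toProd = (v, u) := by
        rw [h1]; intro h; simp only [Prod.mk.injEq] at h; exact huv h.1
      have h3 : d.edge = s(u, v) := by
        rw [hd]; show s(d.toProd.1, d.toProd.2) = _; rw [h1]
      simp only [h1, h3, if_true, beq_self_eq_true]
      rw [if_neg (by rw [h1] at h2; exact h2)]
      simp only [List.length_cons]
      omega
    · by_cases h2 : d.toProd = (v, u)
      · have h3 : d.edge = s(u, v) := by
          rw [hd]; show s(d.toProd.1, d.toProd.2) = _; rw [h2]; exact Sym2.eq_swap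
        rw [if_neg h1, if_pos h2, h3]
        simp only [beq_self_eq_true, if_true, List.length_cons]
        omega
      · have h3 : ¬ d.edge = s(u, v) := by
          rw [hd, Sym2.eq_iff]
          rintro (⟨h4, h5⟩ | ⟨h4, h5⟩)
          · exact h1 (Prod.ext h4 h5)
          · exact h2 (Prod.ext h4 h5)
        rw [if_neg h1, if_neg h2]
        have h4 : (d.edge == s(u, v)) = false := by simpa using h3
        rw [h4]
        simpa using ih

lemma cnt_self {a b : V} (w : G.Walk a b) (u : V) : cnt w u u = 0 := by
  unfold cnt
  rw [List.length_eq_zero_iff, List.filter_eq_nil_iff]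
  intro d _
  simp only [decide_eq_true_eq]
  intro h
  have := d.adj
  rw [h] at this
  exact this.ne rfl

lemma cnt_pos {a b : V} (w : G.Walk a b) (u v : V) (h : 0 < cnt w u v) :
    ∃ d ∈ w.darts, d.fst = u ∧ d.snd = v := by
  unfold cnt at h
  rw [List.length_pos_iff_exists_mem] at h
  obtain ⟨d, hd⟩ := h
  rw [List.mem_filter] at hd
  have := of_decide_eq_true hd.2
  exact ⟨d, hd.1, by rw [this], by rw [this]⟩

lemma sum_cnt_fst {a b : V} (w : G.Walk a b) (u : V) :
    ∑ v, cnt w u v = (w.darts.map (·.fst)).count u := by
  unfold cnt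
  induction w.darts with
  | nil => simp
  | cons d l ih =>
    rw [List.map_cons, List.count_cons, ← ih]
    have h : ∀ v ∈ (univ : Finset V),
        ((d :: l).filter (fun d => decide (d.toProd = (u, v)))).length =
        (l.filter (fun d => decide (d.toProd = (u, v)))).length +
          (if d.toProd = (u, v) then 1 else 0) := by
      intro v _
      rw [List.filter_cons]
      by_cases h1 : d.toProd = (u, v) <;> simp [h1]
    rw [Finset.sum_congr rfl h, Finset.sum_add_distrib]
    congr 1
    by_cases h1 : d.fst = u
    · have : ∀ v ∈ (univ : Finset V), (if d.toProd = (u, v) then 1 else 0) =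
          (if d.snd = v then 1 else 0) := by
        intro v _
        congr 1
        rw [Prod.ext_iff]
        simp [h1]
      rw [Finset.sum_congr rfl this]
      simp [h1]
    · have : ∀ v ∈ (univ : Finset V), (if d.toProd = (u, v) then 1 else 0) = 0 := by
        intro v _
        rw [if_neg]
        intro h2
        rw [Prod.ext_iff] at h2
        exact h1 h2.1
      rw [Finset.sum_congr rfl this]
      simp [h1]

lemma sum_cnt_snd {a b : V} (w : G.Walk a b) (u : V) :
    ∑ v, cnt w v u = (w.darts.map (·.snd)).count u := by
  unfold cnt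
  induction w.darts with
  | nil => simp
  | cons d l ih =>
    rw [List.map_cons, List.count_cons, ← ih]
    have h : ∀ v ∈ (univ : Finset V),
        ((d :: l).filter (fun d => decide (d.toProd = (v, u)))).length =
        (l.filter (fun d => decide (d.toProd = (v, u)))).length +
          (if d.toProd = (v, u) then 1 else 0) := by
      intro v _
      rw [List.filter_cons]
      by_cases h1 : d.toProd = (v, u) <;> simp [h1]
    rw [Finset.sum_congr rfl h, Finset.sum_add_distrib]
    congr 1
    by_cases h1 : d.snd = u
    · have : ∀ v ∈ (univ : Finset V), (if d.toProd = (v, u) then 1 else 0) =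
          (if d.fst = v then 1 else 0) := by
        intro v _
        congr 1
        rw [Prod.ext_iff]
        simp [h1]
      rw [Finset.sum_congr rfl this]
      simp [h1]
    · have : ∀ v ∈ (univ : Finset V), (if d.toProd = (v, u) then 1 else 0) = 0 := by
        intro v _
        rw [if_neg]
        intro h2
        rw [Prod.ext_iff] at h2
        exact h1 h2.2
      rw [Finset.sum_congr rfl this]
      simp [h1]

lemma sum_cnt_eq {a : V} (w : G.Walk a a) (u : V) : ∑ v, cnt w u v = ∑ v, cnt w v u := by
  rw [sum_cnt_fst, sum_cnt_snd]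
  have h1 := w.map_fst_darts_append
  have h2 := w.cons_map_snd_darts
  rw [← h2] at h1
  have h3 := congrArg (List.count u) h1
  rw [List.count_append, List.count_cons] at h3
  simp only [List.count_cons, List.count_nil] at h3
  omega

lemma net_sum {a : V} (w : G.Walk a a) (u : V) : ∑ v, net w u v = 0 := by
  unfold net
  rw [Finset.sum_sub_distrib, ← Nat.cast_sum, ← Nat.cast_sum, sum_cnt_eq, sub_self]

lemma net_antisymm {a b : V} (w : G.Walk a b) (u v : V) : net w v u = - net w u v := by
  unfold net; ring

lemma cnt_le_one {a b : V} (w : G.Walk a b) (hw : w.IsTrail) (u v : V) :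
    cnt w u v + cnt w v u ≤ 1 := by
  by_cases huv : u = v
  · subst huv; rw [cnt_self]; simp
  · rw [cnt_add w u v huv]
    exact List.nodup_iff_count_le_one.1 hw.edges_nodup _

lemma cnt_eq_one_iff {a b : V} (w : G.Walk a b) (hw : w.IsTrail) (u v : V) :
    cnt w u v + cnt w v u = 1 ↔ s(u, v) ∈ w.edges := by
  by_cases huv : u = v
  · subst huv
    rw [cnt_self]
    constructor
    · intro h; omega
    · intro h
      exact absurd (Walk.adj_of_mem_edges w h) (G.loopless.irrefl u)
  · rw [cnt_add w u v huv]
    constructor
    · intro h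
      exact List.count_pos_iff.1 (by omega)
    · intro h
      have h1 := List.count_pos_iff.2 h
      have h2 := List.nodup_iff_count_le_one.1 hw.edges_nodup s(u, v)
      omega

/-- antisymmetric and conserved -/
def Bal (f : V → V → ℤ) : Prop := (∀ u v, f v u = - f u v) ∧ ∀ u, ∑ v, f u v = 0

lemma bal_net {a : V} (w : G.Walk a a) : Bal (net w) := ⟨net_antisymm w, net_sum w⟩

lemma Bal.sub {f g : V → V → ℤ} (hf : Bal f) (hg : Bal g) : Bal (fun u v => f u v - g u v) := by
  refine ⟨fun u v => ?_, fun u => ?_⟩
  · simp only []
    rw [hf.1 u v, hg.1 u v]; ring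
  · rw [Finset.sum_sub_distrib, hf.2, hg.2, sub_self]

lemma Bal.add {f g : V → V → ℤ} (hf : Bal f) (hg : Bal g) : Bal (fun u v => f u v + g u v) := by
  refine ⟨fun u v => ?_, fun u => ?_⟩
  · simp only []
    rw [hf.1 u v, hg.1 u v]; ring
  · rw [Finset.sum_add_distrib, hf.2, hg.2, add_zero]

lemma Bal.neg {f : V → V → ℤ} (hf : Bal f) : Bal (fun u v => - f u v) := by
  refine ⟨fun u v => ?_, fun u => ?_⟩
  · simp only []
    rw [hf.1 u v]
  · rw [Finset.sum_neg_distrib, hf.2, neg_zero]

/-- number of uses of the arc `(u, v)` in a list of closed walks -/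
def tot (C : List (Σ v : V, G.Walk v v)) (u v : V) : ℕ :=
  (C.map (fun c => (c.2.darts.filter (fun d => decide (d.toProd = (u, v)))).length)).sum

lemma tot_cons (c : Σ v : V, G.Walk v v) (C : List (Σ v : V, G.Walk v v)) (u v : V) :
    tot (c :: C) u v = cnt c.2 u v + tot C u v := by
  simp [tot, cnt]

lemma tot_append (C D : List (Σ v : V, G.Walk v v)) (u v : V) :
    tot (C ++ D) u v = tot C u v + tot D u v := by
  simp [tot]

lemma tot_nil (u v : V) : tot ([] : List (Σ v : V, G.Walk v v)) u v = 0 := by
  simp [tot]

/-- balanced arc functions with values in `{-1,0,1}` decompose into directed cycles -/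
theorem decompose : ∀ (n : ℕ) (f : V → V → ℤ), Bal f → (∀ u v, f u v ≠ 0 → G.Adj u v) →
    (∀ u v, f u v ≤ 1) → ∑ u, ∑ v, (f u v).natAbs ≤ n →
    ∃ C : List (Σ v : V, G.Walk v v), (∀ c ∈ C, c.2.IsCycle) ∧
      ∀ u v, (tot C u v : ℤ) = max (f u v) 0 := by
  intro n
  induction n with
  | zero =>
    intro f _ _ _ hs
    refine ⟨[], by simp, fun u v => ?_⟩
    have h1 : ∑ u, ∑ v, (f u v).natAbs = 0 := by omega
    rw [Finset.sum_eq_zero_iff] at h1
    have h2 := h1 u (Finset.mem_univ u)
    rw [Finset.sum_eq_zero_iff] at h2
    have h3 := h2 v (Finset.mem_univ v)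
    rw [Int.natAbs_eq_zero] at h3
    rw [h3, tot_nil]
    simp
  | succ n ih =>
    intro f hf hadj hle hs
    by_cases hz : ∀ u v, f u v ≤ 0
    · refine ⟨[], by simp, fun u v => ?_⟩
      rw [tot_nil]
      have := hz u v
      simp [this]
    push Not at hz
    obtain ⟨b0, c0, h0⟩ := hz
    obtain ⟨a, w, hw, hd⟩ := exists_cycle (G := G) (fun u v => 0 < f u v)
      (fun u v h => hadj u v (ne_of_gt h))
      (by
        intro b c hbc
        have h1 := hf.2 b
        have h2 : ∃ x, f b x < 0 := by
          by_contra hcon
          push Not at hcon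
          have h3 : 0 < ∑ v, f b v :=
            Finset.sum_pos' (fun v _ => hcon v) ⟨c, Finset.mem_univ c, hbc⟩
          omega
        obtain ⟨x, hx⟩ := h2
        refine ⟨x, ?_, ?_⟩
        · rw [hf.1 b x]; omega
        · rintro rfl
          omega) b0 c0 h0
    have hone : ∀ u v, 0 < cnt w u v → f u v = 1 ∧ f v u = -1 := by
      intro u v h
      obtain ⟨d, hd1, hd2, hd3⟩ := cnt_pos w u v h
      have h1 := hd d hd1
      rw [hd2, hd3] at h1
      have h2 := hle u v
      have h3 : f u v = 1 := by omega
      exact ⟨h3, by rw [hf.1 u v, h3]⟩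
    have htr := hw.isTrail
    -- the three cases for an arc
    have hcase : ∀ u v, (cnt w u v = 1 ∧ cnt w v u = 0 ∧ f u v = 1 ∧ f v u = -1) ∨
        (cnt w u v = 0 ∧ cnt w v u = 1 ∧ f u v = -1 ∧ f v u = 1) ∨
        (cnt w u v = 0 ∧ cnt w v u = 0) := by
      intro u v
      have h1 := cnt_le_one w htr u v
      rcases Nat.eq_zero_or_pos (cnt w u v) with h2 | h2
      · rcases Nat.eq_zero_or_pos (cnt w v u) with h3 | h3
        · exact Or.inr (Or.inr ⟨h2, h3⟩)
        · obtain ⟨h4, h5⟩ := hone v u h3
          exact Or.inr (Or.inl ⟨h2, by omega, h5, h4⟩)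
      · obtain ⟨h4, h5⟩ := hone u v h2
        exact Or.inl ⟨by omega, by omega, h4, h5⟩
    obtain ⟨C, hC1, hC2⟩ := ih (fun u v => f u v - net w u v) (hf.sub (bal_net w))
      (by
        intro u v h
        rcases hcase u v with ⟨_, _, h3, _⟩ | ⟨_, _, h3, _⟩ | ⟨h1, h2⟩
        · exact hadj u v (by rw [h3]; norm_num)
        · exact hadj u v (by rw [h3]; norm_num)
        · apply hadj u v
          intro h4
          apply h
          simp [net, h1, h2, h4])
      (by
        intro u v
        rcases hcase u v with ⟨h1, h2, h3, _⟩ | ⟨h1, h2, h3, _⟩ | ⟨h1, h2⟩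
        · simp [net, h1, h2, h3]
        · simp [net, h1, h2, h3]
        · simpa [net, h1, h2] using hle u v)
      (by
        have hlt : ∑ u, ∑ v, (f u v - net w u v).natAbs < ∑ u, ∑ v, (f u v).natAbs := by
          have hterm : ∀ u v, (f u v - net w u v).natAbs ≤ (f u v).natAbs := by
            intro u v
            rcases hcase u v with ⟨h1, h2, h3, _⟩ | ⟨h1, h2, h3, _⟩ | ⟨h1, h2⟩
            · simp [net, h1, h2, h3]
            · simp [net, h1, h2, h3]
            · simp [net, h1, h2]
          have hne : w.darts ≠ [] := by
            intro h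
            have h1 := hw.three_le_length
            rw [← Walk.length_darts, h] at h1
            simp at h1
          obtain ⟨d, hd0⟩ := List.exists_mem_of_ne_nil _ hne
          have hpos : 0 < cnt w d.fst d.snd := by
            unfold cnt
            rw [List.length_pos_iff_exists_mem]
            exact ⟨d, List.mem_filter.2 ⟨hd0, by simp⟩⟩
          have hstrict : (f d.fst d.snd - net w d.fst d.snd).natAbs < (f d.fst d.snd).natAbs := by
            rcases hcase d.fst d.snd with ⟨h1, h2, h3, _⟩ | ⟨h1, h2, h3, _⟩ | ⟨h1, h2⟩
            · simp [net, h1, h2, h3]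
            · omega
            · omega
          apply Finset.sum_lt_sum
          · intro u _
            exact Finset.sum_le_sum (fun v _ => hterm u v)
          · refine ⟨d.fst, Finset.mem_univ _, ?_⟩
            exact Finset.sum_lt_sum (fun v _ => hterm _ v) ⟨d.snd, Finset.mem_univ _, hstrict⟩
        omega)
    refine ⟨⟨a, w⟩ :: C, ?_, ?_⟩
    · intro c hc
      rw [List.mem_cons] at hc
      rcases hc with hc | hc
      · subst hc; exact hw
      · exact hC1 c hc
    · intro u v
      rw [tot_cons]
      push_cast
      rw [hC2 u v]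
      rcases hcase u v with ⟨h1, h2, h3, _⟩ | ⟨h1, h2, h3, _⟩ | ⟨h1, h2⟩
      · simp [net, h1, h2, h3]
      · simp [net, h1, h2, h3]
      · simp [net, h1, h2]

/-- the relation `R` without the edges of the walk `w` -/
def Rem (R : V → V → Prop) {a b : V} (w : G.Walk a b) (u v : V) : Prop :=
  R u v ∧ s(u, v) ∉ w.edges

/-- an even edge set (symmetric relation inside the adjacency relation) has an orientation in
which every vertex is balanced -/
theorem orient : ∀ (n : ℕ) (R : V → V → Prop), (∀ u v, R u v → R v u) →
    (∀ u v, R u v → G.Adj u v) → (∀ u, Even (univ.filter (fun v => R u v)).card) →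
    (univ.filter (fun p : V × V => R p.1 p.2)).card ≤ n →
    ∃ f : V → V → ℤ, Bal f ∧ (∀ u v, R u v → f u v = 1 ∨ f u v = -1) ∧
      ∀ u v, ¬ R u v → f u v = 0 := by
  intro n
  induction n with
  | zero =>
    intro R _ _ _ hs
    have h1 : ∀ u v, ¬ R u v := by
      intro u v h
      have h2 : (univ.filter (fun p : V × V => R p.1 p.2)) = ∅ := by
        rw [← Finset.card_eq_zero]; omega
      have h3 : (u, v) ∈ (univ.filter (fun p : V × V => R p.1 p.2)) := by
        simp only [Finset.mem_filter, Finset.mem_univ, true_and]; exact h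
      rw [h2] at h3
      simp at h3
    exact ⟨fun _ _ => 0, ⟨by simp, by simp⟩, fun u v h => absurd h (h1 u v), fun _ _ _ => rfl⟩
  | succ n ih =>
    intro R hsym hadj hev hs
    by_cases hz : ∀ u v, ¬ R u v
    · exact ⟨fun _ _ => 0, ⟨by simp, by simp⟩, fun u v h => absurd h (hz u v), fun _ _ _ => rfl⟩
    push Not at hz
    obtain ⟨b0, c0, h0⟩ := hz
    obtain ⟨a, w, hw, hd⟩ := exists_cycle (G := G) R hadj
      (by
        intro b c hbc
        by_contra hcon
        push Not at hcon
        have h1 : univ.filter (fun v => R b v) = {c} := by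
          ext x
          simp only [Finset.mem_filter, Finset.mem_univ, true_and, Finset.mem_singleton]
          exact ⟨fun h => hcon x (hsym _ _ h), fun h => h ▸ hbc⟩
        have h2 := hev b
        rw [h1, Finset.card_singleton] at h2
        exact absurd h2 (by decide)) b0 c0 h0
    have htr := hw.isTrail
    have hedge : ∀ u v, s(u, v) ∈ w.edges → R u v := by
      intro u v h
      unfold Walk.edges at h
      rw [List.mem_map] at h
      obtain ⟨d, hd1, hd2⟩ := h
      have h1 := hd d hd1
      have h3 : s(d.fst, d.snd) = s(u, v) := hd2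
      rw [Sym2.eq_iff] at h3
      rcases h3 with ⟨h4, h5⟩ | ⟨h4, h5⟩
      · rw [h4, h5] at h1; exact h1
      · rw [h4, h5] at h1; exact hsym _ _ h1
    have hcase : ∀ u v, (s(u, v) ∈ w.edges ∧ (net w u v = 1 ∨ net w u v = -1)) ∨
        (s(u, v) ∉ w.edges ∧ net w u v = 0) := by
      intro u v
      have h1 := cnt_le_one w htr u v
      by_cases h2 : s(u, v) ∈ w.edges
      · left
        refine ⟨h2, ?_⟩
        have h3 := (cnt_eq_one_iff w htr u v).2 h2
        unfold net
        omega
      · right
        refine ⟨h2, ?_⟩
        have h3 : ¬ (cnt w u v + cnt w v u = 1) := fun h => h2 ((cnt_eq_one_iff w htr u v).1 h)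
        unfold net
        omega
    -- parity of the cycle
    have hpar : ∀ u, Even (univ.filter (fun v => s(u, v) ∈ w.edges)).card := by
      intro u
      have h1 := net_sum w u
      have h2 : ((univ.filter (fun v => s(u, v) ∈ w.edges)).card : ℤ) =
          ∑ v, (if s(u, v) ∈ w.edges then (1 : ℤ) else 0) := by
        rw [Finset.sum_ite]; simp
      have h3 : Even (∑ v, ((if s(u, v) ∈ w.edges then (1 : ℤ) else 0) - net w u v)) := by
        apply Finset.even_sum
        intro v _
        rcases hcase u v with ⟨h4, h5 | h5⟩ | ⟨h4, h5⟩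
        · rw [if_pos h4, h5]; decide
        · rw [if_pos h4, h5]; decide
        · rw [if_neg h4, h5]; decide
      rw [Finset.sum_sub_distrib, h1, sub_zero, ← h2] at h3
      exact_mod_cast h3
    obtain ⟨f, hf1, hf2, hf3⟩ := ih (Rem R w)
      (fun u v h => ⟨hsym _ _ h.1, by rw [Sym2.eq_swap]; exact h.2⟩)
      (fun u v h => hadj u v h.1)
      (by
        intro u
        have h1 : (univ.filter (fun v => R u v)).card =
            (univ.filter (fun v => Rem R w u v)).card +
              (univ.filter (fun v => s(u, v) ∈ w.edges)).card := by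
          rw [← Finset.card_union_of_disjoint]
          · congr 1
            ext v
            simp only [Finset.mem_filter, Finset.mem_univ, true_and, Finset.mem_union]
            constructor
            · intro h
              by_cases h2 : s(u, v) ∈ w.edges
              · exact Or.inr h2
              · exact Or.inl ⟨h, h2⟩
            · rintro (h | h)
              · exact h.1
              · exact hedge u v h
          · rw [Finset.disjoint_left]
            intro v h2 h3
            simp only [Finset.mem_filter, Finset.mem_univ, true_and] at h2 h3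
            exact h2.2 h3
        have h2 := hev u
        rw [h1] at h2
        exact (Nat.even_add.1 h2).2 (hpar u))
      (by
        have hlt : (univ.filter (fun p : V × V => Rem R w p.1 p.2)).card <
            (univ.filter (fun p : V × V => R p.1 p.2)).card := by
          apply Finset.card_lt_card
          rw [Finset.ssubset_iff_of_subset]
          · have hne : w.darts ≠ [] := by
              intro h
              have h1 := hw.three_le_length
              rw [← Walk.length_darts, h] at h1
              simp at h1
            obtain ⟨d, hd0⟩ := List.exists_mem_of_ne_nil _ hne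
            refine ⟨(d.fst, d.snd), ?_, ?_⟩
            · simp only [Finset.mem_filter, Finset.mem_univ, true_and]
              exact hd d hd0
            · intro h
              rw [Finset.mem_filter] at h
              exact h.2.2 (List.mem_map.2 ⟨d, hd0, rfl⟩)
          · intro p
            simp only [Finset.mem_filter, Finset.mem_univ, true_and]
            exact fun h => h.1
        omega)
    refine ⟨fun u v => f u v + net w u v, hf1.add (bal_net w), ?_, ?_⟩
    · intro u v h
      simp only []
      rcases hcase u v with ⟨h4, h5⟩ | ⟨h4, h5⟩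
      · rw [hf3 u v (fun h6 => h6.2 h4), zero_add]
        exact h5
      · rw [h5, add_zero]
        exact hf2 u v ⟨h, h4⟩
    · intro u v h
      simp only []
      rcases hcase u v with ⟨h4, h5⟩ | ⟨h4, h5⟩
      · exact absurd (hedge u v h4) h
      · rw [h5, add_zero]
        exact hf3 u v (fun h6 => h h6.1)

end

end Pool.Agent.H305R2.OC
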