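import Pool.Agent.H126R2.CDC.Colour
import Pool.Agent.H305R2.OC.Cyc

set_option autoImplicit false
set_option linter.unusedSectionVars false

/-!
For every `k ≥ 2` the `k`-fold symmetric digraph of a bridgeless simple graph decomposes into
directed cycles of length at least three.
-/

namespace Pool.Agent.H305R2.OC

open Finset SimpleGraph
open scoped Classical
open Pool.Agent.H126R2.CDC (T3 IsFl exists_double_cover)
open Pool.Agent.Helper879.ECD (F2 cn)

/-- position of a colour -/
def pos (c : T3) : ℕ := (if c.1 then 4 else 0) + (if c.2.1 then 2 else 0) + (if c.2.2 then 1 else 0)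

/-- the twelve sign vectors, as bit masks (rows of an orthogonal array of strength two) -/
def mask (i : Fin 12) : ℕ :=
  ([255, 196, 137, 18, 37, 75, 151, 46, 92, 184, 113, 226] : List ℕ).getD i.1 0

/-- the sign of the colour `c` in the `i`-th vector -/
def sg (i : Fin 12) (c : T3) : ℤ := if (mask i).testBit (pos c) then 1 else -1

lemma sg_cases (i : Fin 12) (c : T3) : sg i c = 1 ∨ sg i c = -1 := by
  unfold sg
  split_ifs
  · exact Or.inl rfl
  · exact Or.inr rfl

/-- the indicator that the `i`-th vector has the bits `x` at `c` and `y` at `d` -/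
def ind (i : Fin 12) (c d : T3) (x y : Bool) : ℤ :=
  cond ((mask i).testBit (pos c) == x && (mask i).testBit (pos d) == y) 1 0

/-- the orthogonal array property -/
lemma oa : ∀ c d : T3, c ≠ d → ∀ x y : Bool, ∑ i : Fin 12, ind i c d x y = 3 := by
  decide +kernel

/-- the number of sign vectors with prescribed signs at two different colours -/
lemma oa_int (c d : T3) (hcd : c ≠ d) (x y : ℤ) (hx : x = 1 ∨ x = -1) (hy : y = 1 ∨ y = -1) :
    ∑ i : Fin 12, max ((sg i c * x + sg i d * y) / 2) 0 = 3 := by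
  have key : ∀ (bx by' : Bool), (if bx then (1 : ℤ) else -1) = x →
      (if by' then (1 : ℤ) else -1) = y →
      ∑ i : Fin 12, max ((sg i c * x + sg i d * y) / 2) 0 = 3 := by
    intro bx by' h1 h2
    rw [← oa c d hcd bx by']
    apply Finset.sum_congr rfl
    intro i _
    rw [← h1, ← h2]
    unfold sg ind
    cases (mask i).testBit (pos c) <;> cases (mask i).testBit (pos d) <;> cases bx <;>
      cases by' <;> simp
  rcases hx with hx | hx <;> rcases hy with hy | hy
  · exact key true true hx.symm hy.symm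
  · exact key true false hx.symm hy.symm
  · exact key false true hx.symm hy.symm
  · exact key false false hx.symm hy.symm

section

variable {V : Type} [Fintype V] (G : SimpleGraph V)

/-- the relation given by the edges of the colour `c` -/
def Rl (S : G.edgeSet → Finset T3) (c : T3) (x y : V) : Prop :=
  ∃ h : s(x, y) ∈ G.edgeSet, c ∈ S ⟨s(x, y), h⟩

/-- eight even edge sets covering every edge exactly twice, as relations on the vertices -/
lemma exists_rel (hG : ∀ u v : V, G.Adj u v → (G.deleteEdges {s(u, v)}).Reachable u v) :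
    ∃ R : T3 → V → V → Prop, (∀ c u v, R c u v → R c v u) ∧ (∀ c u v, R c u v → G.Adj u v) ∧
      (∀ c u, Even (univ.filter (fun v => R c u v)).card) ∧
      ∀ u v, G.Adj u v → ∃ c d, c ≠ d ∧ R c u v ∧ R d u v ∧ ∀ e, R e u v → e = c ∨ e = d := by
  have h0 : ∀ e : G.edgeSet, ∃ p : V × V, s(p.1, p.2) = e.1 := by
    rintro ⟨e, he⟩
    induction e using Sym2.ind with
    | _ x y => exact ⟨(x, y), rfl⟩
  choose p hp using h0
  let v : G.edgeSet × Bool → V := fun h => if h.2 then (p h.1).2 else (p h.1).1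
  have hv : ∀ e, s(v (e, false), v (e, true)) = e.1 := by
    intro e
    simpa [v] using hp e
  have hv2 : ∀ e b, s(v (e, b), v (e, !b)) = e.1 := by
    intro e b
    cases b
    · exact hv e
    · rw [Sym2.eq_swap]; exact hv e
  have hloop : ∀ e b, v (e, b) ≠ v (e, !b) := by
    intro e b h
    have h1 := hv2 e b
    have h2 : s(v (e, b), v (e, !b)) ∈ G.edgeSet := by rw [h1]; exact e.2
    rw [SimpleGraph.mem_edgeSet] at h2
    exact h2.ne h
  have hcut : ∀ X : Finset V,
      cn (fun e => v (e, false)) (fun e => v (e, true)) univ X ≠ 1 := by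
    intro X h
    unfold cn at h
    obtain ⟨e, he⟩ := Finset.card_eq_one.1 h
    have he1 : ¬ (v (e, false) ∈ X ↔ v (e, true) ∈ X) := by
      have : e ∈ univ.filter (fun e => ¬ (v (e, false) ∈ X ↔ v (e, true) ∈ X)) := by
        rw [he]; exact Finset.mem_singleton_self e
      exact (Finset.mem_filter.1 this).2
    obtain ⟨a, b, hab, ha, hb⟩ : ∃ a b, s(a, b) = e.1 ∧ a ∈ X ∧ b ∉ X := by
      by_cases h1 : v (e, false) ∈ X
      · exact ⟨_, _, hv e, h1, fun h2 => he1 ⟨fun _ => h2, fun _ => h1⟩⟩
      · have h2 : v (e, true) ∈ X := by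
          by_contra h2; exact he1 ⟨fun h => absurd h h1, fun h => absurd h h2⟩
        exact ⟨v (e, true), v (e, false), by rw [Sym2.eq_swap]; exact hv e, h2, h1⟩
    have hadj : G.Adj a b := by
      rw [← SimpleGraph.mem_edgeSet, hab]; exact e.2
    obtain ⟨w⟩ := hG a b hadj
    obtain ⟨d, _, hd1, hd2⟩ := w.exists_boundary_dart (X : Set V) (by exact_mod_cast ha)
      (by exact_mod_cast hb)
    have hdadj := d.adj
    rw [SimpleGraph.deleteEdges_adj] at hdadj
    let f : G.edgeSet := ⟨s(d.fst, d.snd), hdadj.1⟩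
    have hf : f ∈ univ.filter (fun e => ¬ (v (e, false) ∈ X ↔ v (e, true) ∈ X)) := by
      rw [Finset.mem_filter]
      refine ⟨Finset.mem_univ _, ?_⟩
      have h1 := hv f
      have h2 : s(v (f, false), v (f, true)) = s(d.fst, d.snd) := h1
      rw [Sym2.eq_iff] at h2
      have hd1' : d.fst ∈ X := by exact_mod_cast hd1
      have hd2' : d.snd ∉ X := by exact_mod_cast hd2
      rcases h2 with ⟨h3, h4⟩ | ⟨h3, h4⟩
      · rw [h3, h4]; exact fun h => hd2' (h.1 hd1')
      · rw [h3, h4]; exact fun h => hd2' (h.2 hd1')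
    rw [he, Finset.mem_singleton] at hf
    apply hdadj.2
    rw [Set.mem_singleton_iff]
    exact (congrArg Subtype.val hf).trans hab.symm
  obtain ⟨S, hS1, hS2⟩ := exists_double_cover v hcut
  refine ⟨Rl G S, ?_, ?_, ?_, ?_⟩
  · rintro c x y ⟨h, hc⟩
    have h' : s(y, x) ∈ G.edgeSet := by rw [Sym2.eq_swap]; exact h
    refine ⟨h', ?_⟩
    have : (⟨s(y, x), h'⟩ : G.edgeSet) = ⟨s(x, y), h⟩ := Subtype.ext Sym2.eq_swap
    rw [this]; exact hc
  · rintro c x y ⟨h, _⟩; exact h
  · intro c u
    have h1 := hS2 c u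
    have h2 : ((univ.filter (fun h : G.edgeSet × Bool => v h = u ∧ c ∈ S h.1)).card : F2) = 0 := by
      rw [← h1, Finset.card_filter, Nat.cast_sum]
      apply Finset.sum_congr rfl
      intro h _
      by_cases h3 : v h = u <;> by_cases h4 : c ∈ S h.1 <;> simp [h3, h4]
    have h3 : Even (univ.filter (fun h : G.edgeSet × Bool => v h = u ∧ c ∈ S h.1)).card :=
      (ZMod.natCast_eq_zero_iff_even).1 h2
    have h4 : (univ.filter (fun h : G.edgeSet × Bool => v h = u ∧ c ∈ S h.1)).card =
        (univ.filter (fun x => Rl G S c u x)).card := by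
      apply Finset.card_bij (fun h _ => v (h.1, !h.2))
      · rintro ⟨e, b⟩ he
        rw [Finset.mem_filter] at he ⊢
        obtain ⟨_, he1, he2⟩ := he
        refine ⟨Finset.mem_univ _, ?_⟩
        have h5 := hv2 e b
        rw [he1] at h5
        have h6 : s(u, v (e, !b)) ∈ G.edgeSet := by
          rw [h5]; exact e.2
        refine ⟨h6, ?_⟩
        have : (⟨s(u, v (e, !b)), h6⟩ : G.edgeSet) = e := Subtype.ext h5
        rw [this]; exact he2
      · rintro ⟨e, b⟩ he ⟨e', b'⟩ he' heq
        rw [Finset.mem_filter] at he he'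
        have h5 := hv2 e b
        have h6 := hv2 e' b'
        have heq' : v (e, !b) = v (e', !b') := heq
        rw [he.2.1] at h5
        rw [he'.2.1, ← heq'] at h6
        have h7 : e = e' := Subtype.ext (h5.symm.trans h6)
        subst h7
        by_cases hb : b = b'
        · subst hb; rfl
        · exfalso
          have h8 : b' = !b := by cases b <;> cases b' <;> simp_all
          apply hloop e b
          rw [← h8]
          exact he.2.1.trans he'.2.1.symm
      · intro x hx
        rw [Finset.mem_filter] at hx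
        obtain ⟨_, hx1, hx2⟩ := hx
        have h5 := hv ⟨s(u, x), hx1⟩
        have h6 : s(v (⟨s(u, x), hx1⟩, false), v (⟨s(u, x), hx1⟩, true)) = s(u, x) := h5
        rw [Sym2.eq_iff] at h6
        rcases h6 with ⟨h7, h8⟩ | ⟨h7, h8⟩
        · exact ⟨(⟨s(u, x), hx1⟩, false), Finset.mem_filter.2 ⟨Finset.mem_univ _, h7, hx2⟩, h8⟩
        · exact ⟨(⟨s(u, x), hx1⟩, true), Finset.mem_filter.2 ⟨Finset.mem_univ _, h8, hx2⟩, h7⟩
    rw [← h4]
    exact h3
  · intro x y h
    obtain ⟨c, d, hcd, hS⟩ := Finset.card_eq_two.1 (hS1 ⟨s(x, y), h⟩)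
    refine ⟨c, d, hcd, ⟨h, ?_⟩, ⟨h, ?_⟩, ?_⟩
    · rw [hS]; simp
    · rw [hS]; simp
    · rintro e ⟨_, he⟩
      rw [hS] at he
      simpa using he

/-- eight balanced arc functions, exactly two of which are nonzero on every edge -/
lemma exists_fl (hG : ∀ u v : V, G.Adj u v → (G.deleteEdges {s(u, v)}).Reachable u v) :
    ∃ f : T3 → V → V → ℤ, (∀ c, Bal (f c)) ∧ (∀ c u v, ¬ G.Adj u v → f c u v = 0) ∧
      ∀ u v, G.Adj u v → ∃ c d, c ≠ d ∧ (f c u v = 1 ∨ f c u v = -1) ∧
        (f d u v = 1 ∨ f d u v = -1) ∧ ∀ e, e ≠ c → e ≠ d → f e u v = 0 := by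
  obtain ⟨R, hR1, hR2, hR3, hR4⟩ := exists_rel G hG
  choose f hf1 hf2 hf3 using fun c => orient (G := G) _ (R c) (hR1 c) (hR2 c) (hR3 c) le_rfl
  refine ⟨f, hf1, fun c u v h => hf3 c u v (fun h1 => h (hR2 c u v h1)), ?_⟩
  intro u v h
  obtain ⟨c, d, hcd, hc, hd, he⟩ := hR4 u v h
  refine ⟨c, d, hcd, hf2 c u v hc, hf2 d u v hd, ?_⟩
  intro e h1 h2
  apply hf3
  intro h3
  rcases he e h3 with h4 | h4
  · exact h1 h4
  · exact h2 h4

/-- a list of directed cycles using every arc exactly `k` times -/
def Dec (k : ℕ) : Prop :=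
  ∃ C : List (Σ v : V, G.Walk v v), (∀ c ∈ C, c.2.IsCycle) ∧
    ∀ u v, G.Adj u v → tot C u v = k

lemma Dec.add {k l : ℕ} (h1 : Dec G k) (h2 : Dec G l) : Dec G (k + l) := by
  obtain ⟨C, hC1, hC2⟩ := h1
  obtain ⟨D, hD1, hD2⟩ := h2
  refine ⟨C ++ D, ?_, ?_⟩
  · intro c hc
    rw [List.mem_append] at hc
    rcases hc with hc | hc
    · exact hC1 c hc
    · exact hD1 c hc
  · intro u v h
    rw [tot_append, hC2 u v h, hD2 u v h]

/-- from a finite family of balanced `{-1,0,1}`-valued arc functions -/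
lemma dec_of_family {ι : Type} (s : Finset ι) (f : ι → V → V → ℤ) (hf : ∀ i ∈ s, Bal (f i))
    (hadj : ∀ i ∈ s, ∀ u v, ¬ G.Adj u v → f i u v = 0) (hle : ∀ i ∈ s, ∀ u v, f i u v ≤ 1) :
    ∃ C : List (Σ v : V, G.Walk v v), (∀ c ∈ C, c.2.IsCycle) ∧
      ∀ u v, (tot C u v : ℤ) = ∑ i ∈ s, max (f i u v) 0 := by
  induction s using Finset.induction_on with
  | empty => exact ⟨[], by simp, fun u v => by rw [tot_nil]; simp⟩
  | insert i s hi ih =>
    obtain ⟨C, hC1, hC2⟩ := ih (fun j hj => hf j (Finset.mem_insert_of_mem hj))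
      (fun j hj => hadj j (Finset.mem_insert_of_mem hj))
      (fun j hj => hle j (Finset.mem_insert_of_mem hj))
    obtain ⟨D, hD1, hD2⟩ := decompose (G := G) _ (f i) (hf i (Finset.mem_insert_self i s))
      (fun u v h => by
        by_contra h1
        exact h (hadj i (Finset.mem_insert_self i s) u v h1))
      (hle i (Finset.mem_insert_self i s)) le_rfl
    refine ⟨D ++ C, ?_, ?_⟩
    · intro c hc
      rw [List.mem_append] at hc
      rcases hc with hc | hc
      · exact hD1 c hc
      · exact hC1 c hc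
    · intro u v
      rw [tot_append, Finset.sum_insert hi, ← hC2, ← hD2]
      push_cast
      rfl

lemma sum_two {c d : T3} (hcd : c ≠ d) (g : T3 → ℤ) (h : ∀ e, e ≠ c → e ≠ d → g e = 0) :
    ∑ e, g e = g c + g d := by
  rw [← Finset.sum_pair hcd]
  symm
  apply Finset.sum_subset (Finset.subset_univ _)
  intro e _ he
  rw [Finset.mem_insert, Finset.mem_singleton, not_or] at he
  exact h e he.1 he.2

lemma dec_two (hG : ∀ u v : V, G.Adj u v → (G.deleteEdges {s(u, v)}).Reachable u v) :
    Dec G 2 := by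
  obtain ⟨f, hf1, hf2, hf3⟩ := exists_fl G hG
  have hbd : ∀ c u v, f c u v = 1 ∨ f c u v = -1 ∨ f c u v = 0 := by
    intro c u v
    by_cases h : G.Adj u v
    · obtain ⟨a, b, _, ha, hb, he⟩ := hf3 u v h
      by_cases h1 : c = a
      · subst h1; rcases ha with h | h <;> simp [h]
      · by_cases h2 : c = b
        · subst h2; rcases hb with h | h <;> simp [h]
        · exact Or.inr (Or.inr (he c h1 h2))
    · exact Or.inr (Or.inr (hf2 c u v h))
  obtain ⟨C, hC1, hC2⟩ := dec_of_family G (univ : Finset T3) f (fun i _ => hf1 i)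
    (fun i _ => hf2 i) (fun i _ u v => by rcases hbd i u v with h | h | h <;> rw [h] <;> norm_num)
  obtain ⟨D, hD1, hD2⟩ := dec_of_family G (univ : Finset T3) (fun c u v => - f c u v)
    (fun i _ => (hf1 i).neg)
    (fun i _ u v h => by rw [hf2 i u v h, neg_zero])
    (fun i _ u v => by
      rcases hbd i u v with h | h | h <;> rw [h] <;> norm_num)
  refine ⟨C ++ D, ?_, ?_⟩
  · intro c hc
    rw [List.mem_append] at hc
    rcases hc with hc | hc
    · exact hC1 c hc
    · exact hD1 c hc
  · intro u v h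
    obtain ⟨a, b, hab, ha, hb, he⟩ := hf3 u v h
    have h1 : (tot (C ++ D) u v : ℤ) = 2 := by
      rw [tot_append]
      push_cast
      rw [hC2, hD2, ← Finset.sum_add_distrib]
      rw [sum_two hab (fun c => max (f c u v) 0 + max (- f c u v) 0)
        (fun e h1 h2 => by rw [he e h1 h2]; norm_num)]
      rcases ha with ha | ha <;> rcases hb with hb | hb <;> rw [ha, hb] <;> norm_num
    exact_mod_cast h1

lemma dec_three (hG : ∀ u v : V, G.Adj u v → (G.deleteEdges {s(u, v)}).Reachable u v) :
    Dec G 3 := by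
  obtain ⟨f, hf1, hf2, hf3⟩ := exists_fl G hG
  let h : Fin 12 → V → V → ℤ := fun i u v => (∑ c, sg i c * f c u v) / 2
  have hval : ∀ u v, G.Adj u v → ∃ c d x y, c ≠ d ∧ (x = 1 ∨ x = -1) ∧ (y = 1 ∨ y = -1) ∧
      ∀ i, ∑ c, sg i c * f c u v = sg i c * x + sg i d * y := by
    intro u v huv
    obtain ⟨a, b, hab, ha, hb, he⟩ := hf3 u v huv
    refine ⟨a, b, f a u v, f b u v, hab, ha, hb, ?_⟩
    intro i
    exact sum_two hab _ (fun e h1 h2 => by rw [he e h1 h2, mul_zero])
  have hz : ∀ i u v, ¬ G.Adj u v → ∑ c, sg i c * f c u v = 0 := by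
    intro i u v huv
    apply Finset.sum_eq_zero
    intro c _
    rw [hf2 c u v huv, mul_zero]
  have hdiv : ∀ i u v, 2 * h i u v = ∑ c, sg i c * f c u v := by
    intro i u v
    apply Int.mul_ediv_cancel'
    by_cases huv : G.Adj u v
    · obtain ⟨c, d, x, y, _, hx, hy, hs⟩ := hval u v huv
      rw [hs i]
      rcases sg_cases i c with h1 | h1 <;> rcases sg_cases i d with h2 | h2 <;>
        rcases hx with hx | hx <;> rcases hy with hy | hy <;> rw [h1, h2, hx, hy] <;> decide
    · rw [hz i u v huv]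
      exact dvd_zero 2
  obtain ⟨C, hC1, hC2⟩ := dec_of_family G (univ : Finset (Fin 12)) h
    (by
      intro i _
      refine ⟨fun u v => ?_, fun u => ?_⟩
      · have h1 := hdiv i u v
        have h2 := hdiv i v u
        have h3 : ∑ c, sg i c * f c v u = - ∑ c, sg i c * f c u v := by
          rw [← Finset.sum_neg_distrib]
          apply Finset.sum_congr rfl
          intro c _
          rw [(hf1 c).1 u v]; ring
        omega
      · have h1 : ∑ v, 2 * h i u v = 0 := by
          rw [Finset.sum_congr rfl (fun v _ => hdiv i u v), Finset.sum_comm]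
          apply Finset.sum_eq_zero
          intro c _
          rw [← Finset.mul_sum, (hf1 c).2 u, mul_zero]
        rw [← Finset.mul_sum] at h1
        omega)
    (by
      intro i _ u v huv
      have h1 := hdiv i u v
      rw [hz i u v huv] at h1
      omega)
    (by
      intro i _ u v
      by_cases huv : G.Adj u v
      · obtain ⟨c, d, x, y, _, hx, hy, hs⟩ := hval u v huv
        have h1 := hdiv i u v
        rw [hs i] at h1
        rcases sg_cases i c with h2 | h2 <;> rcases sg_cases i d with h3 | h3 <;>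
          rcases hx with hx | hx <;> rcases hy with hy | hy <;> rw [h2, h3, hx, hy] at h1 <;>
          omega
      · have h1 := hdiv i u v
        rw [hz i u v huv] at h1
        omega)
  refine ⟨C, hC1, ?_⟩
  intro u v huv
  obtain ⟨c, d, x, y, hcd, hx, hy, hs⟩ := hval u v huv
  have h1 : (tot C u v : ℤ) = 3 := by
    rw [hC2, ← oa_int c d hcd x y hx hy]
    apply Finset.sum_congr rfl
    intro i _
    show max ((∑ c, sg i c * f c u v) / 2) 0 = _
    rw [hs i]
  exact_mod_cast h1

theorem dec_all (hG : ∀ u v : V, G.Adj u v → (G.deleteEdges {s(u, v)}).Reachable u v) :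
    ∀ k : ℕ, 2 ≤ k → Dec G k := by
  intro k
  induction k using Nat.strong_induction_on with
  | _ k ih =>
    intro hk
    rcases Nat.lt_or_ge k 4 with h | h
    · interval_cases k
      · exact dec_two G hG
      · exact dec_three G hG
    · have h1 := ih (k - 2) (by omega) (by omega)
      have h2 := Dec.add G h1 (dec_two G hG)
      have h3 : k - 2 + 2 = k := by omega
      rw [h3] at h2
      exact h2

end

end Pool.Agent.H305R2.OC
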